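import Pool.Agent.H207.BT.Stm5
import Pool.Agent.H747.HY211.CHO
import Pool.Graph.R_seed8.H790R3.RB.TPOLY

/-! Task CNT (helper111 for helper207): the number of periodic points. -/

set_option autoImplicit false

open Topology Filter Metric Set MeasureTheory Polynomial

namespace Pool.Agent.H111.BT207

open Pool.Agent.H790R3.RB Pool.Agent.H211.HY

/-- the derivative of a pair of polynomials -/
theorem deriv_pair (A B : ℂ[X]) (z : ℂ) :
    deriv (fun w : ℂ => ((A.eval w, B.eval w) : ℂ × ℂ)) z =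
      ((derivative A).eval z, (derivative B).eval z) :=
  ((A.hasDerivAt z).prodMk (B.hasDerivAt z)).deriv

theorem spd_aff (z : ℂ) : spd (fun w : ℂ => ((w, 1) : ℂ × ℂ)) z = 1 / N2 (z, 1) := by
  have h : deriv (fun w : ℂ => ((w, 1) : ℂ × ℂ)) z = (1, 0) :=
    ((hasDerivAt_id z).prodMk (hasDerivAt_const z (1 : ℂ))).deriv
  unfold spd
  rw [h]
  simp [cr]

theorem spd_inf : spd (fun w : ℂ => ((1, w) : ℂ × ℂ)) 0 = 1 := by
  have h : deriv (fun w : ℂ => ((1, w) : ℂ × ℂ)) 0 = (0, 1) :=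
    ((hasDerivAt_const (0 : ℂ) (1 : ℂ)).prodMk (hasDerivAt_id (0 : ℂ))).deriv
  unfold spd
  rw [h]
  simp [cr, N2]

section
variable {d : ℕ} {x : CV d}

/-- the zeros of `A - X B` are simple -/
theorem simple (hd : 2 ≤ d) (hx : ND x) (n : ℕ) (A B : ℂ[X])
    (hAB : ∀ ζ : ℂ, (A.eval ζ, B.eval ζ) = (hF x)^[n] (ζ, 1)) (ξ : ℂ)
    (h0 : (A - X * B).eval ξ = 0) (h1 : (derivative (A - X * B)).eval ξ = 0) :
    sdn x n (ξ, 1) = 1 := by
  have hne : ((ξ, 1) : ℂ × ℂ) ≠ 0 := by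
    intro h
    exact one_ne_zero (congrArg Prod.snd h)
  have hs := Pool.Agent.H747.HY211.CHO.spd_iter x hd hx (fun w : ℂ => ((w, 1) : ℂ × ℂ)) ξ n
    ((hasDerivAt_id ξ).prodMk (hasDerivAt_const ξ (1 : ℂ))).differentiableAt hne
  have hfun : (fun w : ℂ => (hF x)^[n] (w, 1)) = fun w : ℂ => ((A.eval w, B.eval w) : ℂ × ℂ) := by
    funext w
    exact (hAB w).symm
  rw [hfun, spd_aff] at hs
  have hA : A.eval ξ = ξ * B.eval ξ := by
    have : A.eval ξ - ξ * B.eval ξ = 0 := by simpa using h0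
    exact sub_eq_zero.1 this
  have hB : B.eval ξ ≠ 0 := by
    intro hB
    apply hx.iter_ne n hne
    rw [← hAB ξ, hA, hB, mul_zero]
    rfl
  have hD : (derivative A).eval ξ - (B.eval ξ + ξ * (derivative B).eval ξ) = 0 := by
    have : (derivative A).eval ξ - (B.eval ξ + ξ * (derivative B).eval ξ) =
        (derivative (A - X * B)).eval ξ := by
      simp
    rw [this, h1]
  have hN : N2 ((A.eval ξ, B.eval ξ) : ℂ × ℂ) = ‖B.eval ξ‖ ^ 2 * N2 (ξ, 1) := by
    have : ((A.eval ξ, B.eval ξ) : ℂ × ℂ) = B.eval ξ • ((ξ, 1) : ℂ × ℂ) := by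
      ext
      · simp [hA, mul_comm]
      · simp
    rw [this, Pool.Agent.H747.HY211.CHO.N2_smul]
  have hcr : cr ((derivative A).eval ξ, (derivative B).eval ξ) (A.eval ξ, B.eval ξ) =
      B.eval ξ ^ 2 := by
    unfold cr
    simp only
    rw [hA]
    linear_combination B.eval ξ * hD
  have hN1 : 0 < N2 ((ξ, 1) : ℂ × ℂ) := Pool.Agent.H747.HY211.CHO.N2_pos hne
  have hB2 : 0 < ‖B.eval ξ‖ ^ 2 := by
    have := norm_pos_iff.2 hB
    positivity
  unfold spd at hs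
  rw [deriv_pair, hcr, hN, norm_pow] at hs
  have h3 : ‖B.eval ξ‖ ^ 2 / (‖B.eval ξ‖ ^ 2 * N2 (ξ, 1)) = 1 / N2 (ξ, 1) := by
    field_simp
  rw [h3] at hs
  have h4 : (sdn x n (ξ, 1) - 1) * (1 / N2 (ξ, 1)) = 0 := by
    rw [sub_mul, one_mul, ← hs, sub_self]
  rcases mul_eq_zero.1 h4 with h | h
  · linarith
  · exfalso
    have : 0 < 1 / N2 ((ξ, 1) : ℂ × ℂ) := by positivity
    linarith

theorem eval_reflect (A : ℂ[X]) (D : ℕ) (hA : A.natDegree ≤ D) (w : ℂ) (hw : w ≠ 0) :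
    (A.reflect D).eval w = w ^ D * A.eval w⁻¹ := by
  let _ : Invertible (w⁻¹) := invertibleOfNonzero (inv_ne_zero hw)
  have h := eval₂_reflect_mul_pow (RingHom.id ℂ) (w⁻¹) D A hA
  have h2 : ⅟(w⁻¹) = w := by
    rw [invOf_eq_inv, inv_inv]
  rw [h2] at h
  have h3 : eval₂ (RingHom.id ℂ) w (reflect D A) = (A.reflect D).eval w := rfl
  have h4 : eval₂ (RingHom.id ℂ) (w⁻¹) A = A.eval w⁻¹ := rfl
  rw [h3, h4] at h
  rw [← h, inv_pow]
  field_simp

/-- the multiplier at infinity -/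
theorem infty (hd : 2 ≤ d) (hx : ND x) (n : ℕ) (A B : ℂ[X]) (hA : A.natDegree ≤ d ^ n)
    (hB : B.natDegree ≤ d ^ n)
    (hAB : ∀ ζ : ℂ, (A.eval ζ, B.eval ζ) = (hF x)^[n] (ζ, 1))
    (cA : A.coeff (d ^ n) = ((hF x)^[n] (1, 0)).1) (cB : B.coeff (d ^ n) = ((hF x)^[n] (1, 0)).2)
    (h0 : B.coeff (d ^ n) = 0) (h1 : A.coeff (d ^ n) = B.coeff (d ^ n - 1)) :
    sdn x n (1, 0) = 1 := by
  have hne : ((1, 0) : ℂ × ℂ) ≠ 0 := by
    intro h
    exact one_ne_zero (congrArg Prod.fst h)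
  have hD : 1 ≤ d ^ n := Nat.one_le_pow _ _ (by omega)
  have hs := Pool.Agent.H747.HY211.CHO.spd_iter x hd hx (fun w : ℂ => ((1, w) : ℂ × ℂ)) 0 n
    ((hasDerivAt_const (0 : ℂ) (1 : ℂ)).prodMk (hasDerivAt_id (0 : ℂ))).differentiableAt hne
  have hfun : (fun w : ℂ => (hF x)^[n] (1, w)) =
      fun w : ℂ => (((A.reflect (d ^ n)).eval w, (B.reflect (d ^ n)).eval w) : ℂ × ℂ) := by
    funext w
    by_cases hw : w = 0
    · subst hw
      rw [← coeff_zero_eq_eval_zero, ← coeff_zero_eq_eval_zero, coeff_reflect, coeff_reflect,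
        revAt_le (Nat.zero_le _), Nat.sub_zero, cA, cB]
    · have h2 : ((1, w) : ℂ × ℂ) = w • ((w⁻¹, 1) : ℂ × ℂ) := by
        ext
        · simp [hw]
        · simp
      rw [h2, hF_iter_smul, ← hAB, eval_reflect A _ hA w hw, eval_reflect B _ hB w hw]
      rfl
  rw [hfun, spd_inf, mul_one] at hs
  rw [← hs]
  unfold spd
  rw [deriv_pair]
  have e1 : (A.reflect (d ^ n)).eval 0 = A.coeff (d ^ n) := by
    rw [← coeff_zero_eq_eval_zero, coeff_reflect, revAt_le (Nat.zero_le _), Nat.sub_zero]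
  have e2 : (B.reflect (d ^ n)).eval 0 = 0 := by
    rw [← coeff_zero_eq_eval_zero, coeff_reflect, revAt_le (Nat.zero_le _), Nat.sub_zero, h0]
  have e3 : (derivative (B.reflect (d ^ n))).eval 0 = B.coeff (d ^ n - 1) := by
    rw [← coeff_zero_eq_eval_zero, coeff_derivative, coeff_reflect, zero_add, revAt_le hD]
    simp
  have hα : A.coeff (d ^ n) ≠ 0 := by
    intro h
    apply hx.iter_ne n hne
    ext
    · rw [← cA, h]; rfl
    · rw [← cB, h0]; rfl
  simp only [e1, e2, e3, cr, N2, ← h1, mul_zero, zero_sub, norm_neg, norm_mul, norm_zero]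
  have hα2 : 0 < ‖A.coeff (d ^ n)‖ := norm_pos_iff.2 hα
  field_simp
  simp

end

theorem t_CNT : Pool.Agent.H207.BT.S_CNT := by
  classical
  intro d x hd hx hrep n hn
  obtain ⟨A, B, hA, hB, eA, eB, cA, cB⟩ := Pool.Agent.H790R3.RB.POLY d x n (by omega)
  have hAB : ∀ ζ : ℂ, (A.eval ζ, B.eval ζ) = (hF x)^[n] (ζ, 1) := fun ζ => by
    ext
    · exact eA ζ
    · exact eB ζ
  have hD : 1 ≤ d ^ n := Nat.one_le_pow _ _ (by omega)
  set P : ℂ[X] := A - X * B with hP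
  have hcr : ∀ ξ : ℂ, P.eval ξ = 0 → cr ((hF x)^[n] (ξ, 1)) (ξ, 1) = 0 := by
    intro ξ hξ
    rw [← hAB ξ]
    have h1 : A.eval ξ - ξ * B.eval ξ = 0 := by simpa [hP] using hξ
    unfold cr
    simp only [mul_one]
    linear_combination h1
  have hsimple : ∀ ξ : ℂ, P.eval ξ = 0 → (derivative P).eval ξ ≠ 0 := by
    intro ξ h0 h1
    have h2 := simple hd hx n A B hAB ξ h0 h1
    have h3 := hrep (ξ, 1) n (fun h => one_ne_zero (congrArg Prod.snd h)) hn (hcr ξ h0)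
    linarith
  have hdeg : d ^ n ≤ P.natDegree := by
    by_cases hb : B.coeff (d ^ n) = 0
    · have hinf : cr ((hF x)^[n] (1, 0)) (1, 0) = 0 := by
        unfold cr
        simp only [mul_zero, mul_one, zero_sub]
        rw [← cB, hb, neg_zero]
      have h3 := hrep (1, 0) n (fun h => one_ne_zero (congrArg Prod.fst h)) hn hinf
      apply le_natDegree_of_ne_zero
      rw [hP, coeff_sub]
      obtain ⟨D, hDD⟩ : ∃ D, d ^ n = D + 1 := ⟨d ^ n - 1, by omega⟩
      have h4 : (X * B).coeff (d ^ n) = B.coeff (d ^ n - 1) := by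
        rw [hDD, coeff_X_mul, Nat.add_sub_cancel]
      rw [h4]
      intro h5
      have h6 := infty hd hx n A B hA hB hAB cA cB hb (sub_eq_zero.1 h5)
      linarith
    · have h4 : P.coeff (d ^ n + 1) ≠ 0 := by
        rw [hP, coeff_sub, coeff_X_mul, coeff_eq_zero_of_natDegree_lt (by omega), zero_sub]
        exact neg_ne_zero.2 hb
      exact (Nat.le_succ _).trans (le_natDegree_of_ne_zero h4)
  have hP0 : P ≠ 0 := by
    intro h
    rw [h, natDegree_zero] at hdeg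
    omega
  have hnd : P.roots.Nodup := by
    rw [Multiset.nodup_iff_count_le_one]
    intro a
    rw [count_roots]
    by_contra h
    push Not at h
    have h2 := (one_lt_rootMultiplicity_iff_isRoot hP0).1 h
    exact hsimple a h2.1 h2.2
  refine ⟨P.roots.toFinset, ?_, fun ξ hξ => ?_⟩
  · rw [Multiset.toFinset_card_of_nodup hnd, IsAlgClosed.card_roots_eq_natDegree]
    exact hdeg
  · rw [Multiset.mem_toFinset, mem_roots hP0] at hξ
    exact hcr ξ hξ

end Pool.Agent.H111.BT207
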